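import Mathlib

/-! The number of equivalence classes of Hadamard matrices does not drop from order `n` to
order `2n`: Sylvester doubling is injective on classes. -/

namespace Pool.Agent.Results.MP_ced6ff_co.Doubling

open Finset Matrix Kronecker

/-- `B` arises from `A` by permuting rows and columns and negating some rows and columns. -/
def HEquiv {n : ℕ} (A B : Matrix (Fin n) (Fin n) ℤ) : Prop :=
  ∃ (σ τ : Equiv.Perm (Fin n)) (s t : Fin n → ℤˣ),
    ∀ i j, B i j = s i * t j * A (σ i) (τ j)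

/-- The number of equivalence classes of Hadamard matrices of order `n`. -/
noncomputable def h (n : ℕ) : ℕ :=
  Nat.card (Quot (fun A B : {H : Matrix (Fin n) (Fin n) ℤ // H.IsHadamard} => HEquiv A.1 B.1))

variable {ι α β : Type} [Fintype ι] [DecidableEq ι] [Fintype α] [Fintype β]

def f (A : Matrix α α ℤ) (M : Finset (ι × ι)) : ℤ :=
  ∑ r : ι → α, ∑ c : ι → α, ∏ p ∈ M, A (r p.1) (c p.2)

def sg (M : Finset (ι × ι)) : ℤ :=
  ∑ s : ι → ℤˣ, ∑ t : ι → ℤˣ, ∏ p ∈ M, ((s p.1 : ℤ) * t p.2)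

lemma sg_mul (M : Finset (ι × ι)) (u v : ι → ℤˣ) :
    sg M * ∏ p ∈ M, ((u p.1 : ℤ) * v p.2) = sg M := by
  conv_rhs => rw [sg, ← Equiv.sum_comp (Equiv.mulRight u)]
  rw [sg, sum_mul]
  refine sum_congr rfl (fun s _ => ?_)
  conv_rhs => rw [← Equiv.sum_comp (Equiv.mulRight v)]
  rw [sum_mul]
  refine sum_congr rfl (fun t _ => ?_)
  rw [← prod_mul_distrib]
  refine prod_congr rfl (fun p _ => ?_)
  simp only [Equiv.coe_mulRight, Pi.mul_apply, Units.val_mul]
  ring

lemma f_sub (A : Matrix α α ℤ) (σ τ : β ≃ α) (M : Finset (ι × ι)) :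
    f (A.submatrix σ τ) M = f A M := by
  unfold f
  rw [← (Equiv.arrowCongr (Equiv.refl ι) σ).sum_comp]
  refine sum_congr rfl (fun r _ => ?_)
  rw [← (Equiv.arrowCongr (Equiv.refl ι) τ).sum_comp]
  rfl

lemma f_equiv {n : ℕ} {A B : Matrix (Fin n) (Fin n) ℤ} (hAB : HEquiv A B) (M : Finset (ι × ι)) :
    sg M * f A M = sg M * f B M := by
  obtain ⟨σ, τ, s, t, hst⟩ := hAB
  rw [← f_sub A σ τ]
  simp only [f, mul_sum, hst, prod_mul_distrib (f := fun p : ι × ι => _ * _), ← mul_assoc]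
  refine sum_congr rfl (fun r _ => sum_congr rfl (fun c _ => ?_))
  rw [← sg_mul M (s ∘ r) (t ∘ c)]
  conv_rhs => rw [sg_mul]
  rfl

lemma f_kron (A : Matrix α α ℤ) (B : Matrix β β ℤ) (M : Finset (ι × ι)) :
    f (A ⊗ₖ B) M = f A M * f B M := by
  unfold f
  rw [← (Equiv.arrowProdEquivProdArrow ι (fun _ => α) (fun _ => β)).symm.sum_comp,
    Fintype.sum_prod_type, sum_mul_sum]
  refine sum_congr rfl (fun r _ => sum_congr rfl (fun r' _ => ?_))
  rw [← (Equiv.arrowProdEquivProdArrow ι (fun _ => α) (fun _ => β)).symm.sum_comp,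
    Fintype.sum_prod_type, sum_mul_sum]
  refine sum_congr rfl (fun c _ => sum_congr rfl (fun c' _ => ?_))
  rw [← prod_mul_distrib]
  rfl

def H2 : Matrix (Fin 2) (Fin 2) ℤ := !![1, 1; 1, -1]

lemma H2_had : H2.IsHadamard := ⟨by simp only [Unitary.mem_iff]; decide, by decide, by decide⟩

lemma f_H2 (M : Finset (ι × ι)) : 0 < f H2 M := by
  have e : ∀ r : ι → Fin 2, ∑ c : ι → Fin 2, ∏ p ∈ M, H2 (r p.1) (c p.2) =
      ∏ j, ∑ b : Fin 2, ∏ p ∈ M with p.2 = j, H2 (r p.1) b := by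
    intro r
    rw [prod_univ_sum, Fintype.piFinset_univ]
    refine sum_congr rfl (fun c _ => ?_)
    rw [← prod_fiberwise M Prod.snd]
    refine prod_congr rfl (fun j _ => prod_congr rfl (fun p hp => ?_))
    rw [(mem_filter.1 hp).2]
  have e0 : ∀ a, H2 a 0 = 1 := by decide
  have e1 : ∀ a, |H2 a 1| = 1 := by decide
  unfold f
  simp only [e, Fin.sum_univ_two, e0, prod_const_one]
  refine sum_pos' (fun r _ => prod_nonneg (fun j _ => ?_)) ⟨0, mem_univ _, prod_pos (fun j _ => ?_)⟩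
  · have : |∏ p ∈ M with p.2 = j, H2 (r p.1) 1| = 1 := by simp only [abs_prod, e1, prod_const_one]
    have := neg_abs_le (∏ p ∈ M with p.2 = j, H2 (r p.1) 1)
    omega
  · have : H2 0 1 = 1 := rfl
    simp [this]

lemma expand (A X : Matrix ι ι ℤ) :
    ∑ M ∈ (univ : Finset (ι × ι)).powerset, (∏ p ∈ M, A p.1 p.2) * (sg M * f X M) =
    ∑ s : ι → ℤˣ, ∑ r : ι → ι, ∑ t : ι → ℤˣ, ∑ c : ι → ι,
      ∏ p : ι × ι, (1 + A p.1 p.2 * ((s p.1 : ℤ) * t p.2 * X (r p.1) (c p.2))) := by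
  simp only [prod_one_add, sg, f, sum_mul_sum]
  simp only [mul_sum, ← prod_mul_distrib]
  rw [sum_comm]
  refine sum_congr rfl (fun s _ => ?_)
  rw [sum_comm]
  refine sum_congr rfl (fun r _ => ?_)
  rw [sum_comm]
  refine sum_congr rfl (fun t _ => ?_)
  rw [sum_comm]

lemma pm {A : Matrix ι ι ℤ} (hA : A.IsHadamard) (i j : ι) : A i j = 1 ∨ A i j = -1 :=
  Int.eq_one_or_neg_one_of_mul_eq_one (u := A i j) (v := A i j) (hA.apply_mem i j).1

lemma row_inj {A B : Matrix ι ι ℤ} (hA : A.IsHadamard) {r c : ι → ι} {s t : ι → ℤˣ}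
    (hh : ∀ i j, A i j = s i * t j * B (r i) (c j)) : Function.Injective r := by
  intro i k hik
  by_contra hne
  have h1 := congrFun (congrFun hA.mul_conjTranspose i) k
  have h2 := congrFun (congrFun hA.mul_conjTranspose i) i
  simp only [mul_apply, conjTranspose_apply, star_trivial, Matrix.smul_apply, one_apply_ne hne,
    one_apply_eq, smul_eq_mul, mul_zero, mul_one] at h1 h2
  have h3 : ∑ j, A i j * A i j = (s i * s k : ℤ) * ∑ j, A i j * A k j := by
    rw [mul_sum]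
    refine sum_congr rfl (fun j _ => ?_)
    have : (s k : ℤ) * s k = 1 := by rcases Int.units_eq_one_or (s k) with h | h <;> simp [h]
    rw [hh i j, hh k j, hik]
    linear_combination (-(s i * s i * t j * t j * B (r k) (c j) * B (r k) (c j) : ℤ)) * this
  rw [h1, h2, mul_zero] at h3
  have : Nonempty ι := ⟨i⟩
  exact Fintype.card_ne_zero (by exact_mod_cast h3)

lemma recover {n : ℕ} {A B : Matrix (Fin n) (Fin n) ℤ} (hA : A.IsHadamard) (hB : B.IsHadamard)
    (hh : ∀ M : Finset (Fin n × Fin n), sg M * f A M = sg M * f B M) : HEquiv B A := by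
  have e := expand A A
  simp only [hh] at e
  rw [expand] at e
  have nn : ∀ (s t : Fin n → ℤˣ) (r c : Fin n → Fin n),
      0 ≤ ∏ p : Fin n × Fin n, (1 + A p.1 p.2 * ((s p.1 : ℤ) * t p.2 * A (r p.1) (c p.2))) := by
    intro s t r c
    refine prod_nonneg (fun p _ => ?_)
    rcases pm hA p.1 p.2 with h1 | h1 <;> rcases pm hA (r p.1) (c p.2) with h2 | h2 <;>
    rcases Int.units_eq_one_or (s p.1) with h3 | h3 <;>
    rcases Int.units_eq_one_or (t p.2) with h4 | h4 <;> simp [h1, h2, h3, h4]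
  have pos : 0 < ∑ s : Fin n → ℤˣ, ∑ r : Fin n → Fin n, ∑ t : Fin n → ℤˣ, ∑ c : Fin n → Fin n,
      ∏ p : Fin n × Fin n, (1 + A p.1 p.2 * ((s p.1 : ℤ) * t p.2 * A (r p.1) (c p.2))) := by
    refine sum_pos' (fun s _ => sum_nonneg fun r _ => sum_nonneg fun t _ =>
      sum_nonneg fun c _ => nn s t r c) ⟨1, mem_univ _, ?_⟩
    refine sum_pos' (fun r _ => sum_nonneg fun t _ =>
      sum_nonneg fun c _ => nn 1 t r c) ⟨id, mem_univ _, ?_⟩
    refine sum_pos' (fun t _ => sum_nonneg fun c _ => nn 1 t id c) ⟨1, mem_univ _, ?_⟩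
    refine sum_pos' (fun c _ => nn 1 1 id c) ⟨id, mem_univ _, prod_pos (fun p _ => ?_)⟩
    rcases pm hA p.1 p.2 with h1 | h1 <;> simp [h1]
  rw [← e] at pos
  obtain ⟨s, -, hs⟩ := exists_ne_zero_of_sum_ne_zero pos.ne'
  obtain ⟨r, -, hr⟩ := exists_ne_zero_of_sum_ne_zero hs
  obtain ⟨t, -, ht⟩ := exists_ne_zero_of_sum_ne_zero hr
  obtain ⟨c, -, hc⟩ := exists_ne_zero_of_sum_ne_zero ht
  have key : ∀ i j, A i j = s i * t j * B (r i) (c j) := by
    intro i j
    have := prod_ne_zero_iff.1 hc (i, j) (mem_univ _)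
    rcases pm hA i j with h1 | h1 <;> rcases pm hB (r i) (c j) with h2 | h2 <;>
    rcases Int.units_eq_one_or (s i) with h3 | h3 <;>
    rcases Int.units_eq_one_or (t j) with h4 | h4 <;> simp [h1, h2, h3, h4] at this ⊢
  have i1 := row_inj hA key
  have i2 : Function.Injective c := row_inj (B := Bᵀ) (s := t) (t := s) (c := r) hA.transpose
    (fun i j => by simp only [transpose_apply]; rw [key]; ring)
  exact ⟨Equiv.ofBijective r (Finite.injective_iff_bijective.1 i1),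
    Equiv.ofBijective c (Finite.injective_iff_bijective.1 i2), s, t, key⟩

def dbl {n : ℕ} (A : Matrix (Fin n) (Fin n) ℤ) : Matrix (Fin (2 * n)) (Fin (2 * n)) ℤ :=
  (H2 ⊗ₖ A).submatrix finProdFinEquiv.symm finProdFinEquiv.symm

theorem result : ∀ n : ℕ, 1 ≤ n → h n ≤ h (2 * n) := by
  intro n _
  have fin : Finite {H : Matrix (Fin (2 * n)) (Fin (2 * n)) ℤ // H.IsHadamard} := by
    refine Set.Finite.subset (s := Set.univ.pi fun _ => Set.univ.pi fun _ => {1, -1})
      (Set.Finite.pi fun _ => Set.Finite.pi fun _ => Set.toFinite _) ?_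
    intro H hH i _ j _
    exact pm hH i j
  let D : {H : Matrix (Fin n) (Fin n) ℤ // H.IsHadamard} →
      {H : Matrix (Fin (2 * n)) (Fin (2 * n)) ℤ // H.IsHadamard} := fun A =>
    ⟨dbl A.1, (isHadamard_submatrix_equiv_iff _ _).2 (H2_had.kronecker A.2)⟩
  let inv : Quot (fun A B : {H : Matrix (Fin (2 * n)) (Fin (2 * n)) ℤ // H.IsHadamard} =>
      HEquiv A.1 B.1) → Finset (Fin n × Fin n) → ℤ :=
    Quot.lift (fun A M => sg M * f A.1 M) (fun A B hAB => funext (f_equiv hAB))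
  refine Nat.card_le_card_of_injective (fun x => Quot.mk _ (D x.out)) (fun x y hxy => ?_)
  have h1 := congrArg inv hxy
  rw [← x.out_eq, ← y.out_eq]
  symm
  refine Quot.sound (recover x.out.2 y.out.2 (fun M => ?_))
  have h2 : sg M * f (dbl x.out.1) M = sg M * f (dbl y.out.1) M := congrFun h1 M
  simp only [dbl, f_sub, f_kron] at h2
  refine mul_left_cancel₀ (f_H2 M).ne' ?_
  linear_combination h2

end Pool.Agent.Results.MP_ced6ff_co.Doubling
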